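import Pool.Agent.P.MP_08cc25_al.HSmall

set_option autoImplicit false
open Pointwise

namespace Pool.Agent.Results.MP_08cc25_al.SmallPieces

universe u

/-- Every infinite group `G` is a disjoint union of countably many sets that are left and right
`|G|`-small. -/
theorem result :
    ∀ (G : Type u) [Group G], Infinite G →
      ∃ A : ℕ → Set G,
        (⋃ n, A n) = Set.univ ∧
        Pairwise (fun i j => Disjoint (A i) (A j)) ∧
        ∀ n,
          (∀ L : Set G, (∃ F : Set G, Cardinal.mk F < Cardinal.mk G ∧ F * L = Set.univ) →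
            ∃ F : Set G, Cardinal.mk F < Cardinal.mk G ∧ F * (L \ A n) = Set.univ) ∧
          (∀ L : Set G, (∃ F : Set G, Cardinal.mk F < Cardinal.mk G ∧ L * F = Set.univ) →
            ∃ F : Set G, Cardinal.mk F < Cardinal.mk G ∧ (L \ A n) * F = Set.univ) := by
  intro G _ hG
  exact Pool.Agent.P.MP_08cc25_al.Hedge.small_pieces G hG

end Pool.Agent.Results.MP_08cc25_al.SmallPieces
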