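import Pool.Agent.P.MP_08cc25_al.HSmall

set_option autoImplicit false
open Pointwise

namespace Pool.Agent.Results.MP_08cc25_al.TwoSided

universe u

/-- Every infinite group `G` is a disjoint union of countably many sets `A n` with
`F * A n * F ≠ G` for every set `F` of fewer than `|G|` elements. -/
theorem result :
    ∀ (G : Type u) [Group G], Infinite G →
      ∃ A : ℕ → Set G,
        (⋃ n, A n) = Set.univ ∧
        Pairwise (fun i j => Disjoint (A i) (A j)) ∧
        ∀ n, ∀ F : Set G, Cardinal.mk F < Cardinal.mk G → F * A n * F ≠ Set.univ := by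
  intro G _ hG
  exact Pool.Agent.P.MP_08cc25_al.Hedge.two_sided G hG

end Pool.Agent.Results.MP_08cc25_al.TwoSided
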